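import Pool.Agent.helper78.ED.Defs2

/-!
# Project ED (MP_4467b5_nt), module CP: choice of the power
-/

set_option autoImplicit false

open Complex MeasureTheory

namespace Pool.Agent.helper78.ED

open Pool.Agent.helper84.DM

theorem choose_pow2 (δ : ℝ) (hδ : 0 < δ) (hδ1 : δ ≤ 1 / 4) : ∃ T₀ : ℝ, ∀ T : ℝ, T₀ ≤ T →
    ∀ X : ℝ, T ^ (1 + 2 * δ) ≤ X → X ≤ T ^ (6 : ℕ) →
    ∀ N : ℕ, T ^ δ / 2 ≤ (N : ℝ) → (N : ℝ) ≤ T ^ (1 / 2 + δ) → ∃ k : ℕ, 1 ≤ k ∧
      (k : ℝ) ≤ 7 / δ ∧ X ^ (2 / 3 : ℝ) ≤ (N : ℝ) ^ k ∧ (N : ℝ) ^ k ≤ X := by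
  refine ⟨(128 : ℝ) ^ (1 / δ), fun T hT X hX1 hX2 N hN1 hN2 => ?_⟩
  have h128 : (1 : ℝ) < (128 : ℝ) ^ (1 / δ) := Real.one_lt_rpow (by norm_num) (by positivity)
  have hT1 : 1 < T := lt_of_lt_of_le h128 hT
  have hT0 : 0 < T := by linarith
  have hlogT : 0 < Real.log T := Real.log_pos hT1
  have hl2 : 0 < Real.log 2 := Real.log_pos (by norm_num)
  have hdl : 7 * Real.log 2 ≤ δ * Real.log T := by
    have h1 : Real.log ((128 : ℝ) ^ (1 / δ)) ≤ Real.log T := Real.log_le_log (by positivity) hT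
    rw [Real.log_rpow (by norm_num)] at h1
    have h2 : Real.log 128 = 7 * Real.log 2 := by
      rw [show (128 : ℝ) = 2 ^ 7 by norm_num, Real.log_pow]
      norm_num
    rw [h2] at h1
    calc 7 * Real.log 2 = δ * (1 / δ * (7 * Real.log 2)) := by field_simp
      _ ≤ δ * Real.log T := mul_le_mul_of_nonneg_left h1 hδ.le
  have hTd : 0 < T ^ δ := Real.rpow_pos_of_pos hT0 δ
  have hN0 : (0 : ℝ) < N := by linarith
  have hlogN : 6 / 7 * (δ * Real.log T) ≤ Real.log N := by
    have h1 : Real.log (T ^ δ / 2) ≤ Real.log N := Real.log_le_log (by positivity) hN1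
    rw [Real.log_div hTd.ne' (by norm_num), Real.log_rpow hT0] at h1
    linarith
  have hlogN0 : 0 < Real.log N := lt_of_lt_of_le (by positivity) hlogN
  have hX0 : 0 < X := lt_of_lt_of_le (Real.rpow_pos_of_pos hT0 _) hX1
  have hlogX1 : (1 + 2 * δ) * Real.log T ≤ Real.log X := by
    have := Real.log_le_log (Real.rpow_pos_of_pos hT0 _) hX1
    rwa [Real.log_rpow hT0] at this
  have hlogX2 : Real.log X ≤ 6 * Real.log T := by
    have := Real.log_le_log hX0 hX2
    rw [Real.log_pow] at this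
    simpa using this
  have hlogN2 : Real.log N ≤ (1 / 2 + δ) * Real.log T := by
    have h1 := Real.log_le_log hN0 hN2
    rwa [Real.log_rpow hT0] at h1
  have hlogX0 : 0 < Real.log X := by nlinarith
  rcases le_or_gt (Real.log N) (Real.log X / 3) with hc | hc
  · set k := ⌊Real.log X / Real.log N⌋₊ with hk
    have hq : 1 ≤ Real.log X / Real.log N := by
      rw [le_div_iff₀ hlogN0]
      linarith
    have hk1 : 1 ≤ k := by
      rw [hk]
      exact (Nat.one_le_floor_iff _).2 hq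
    have hk2 : (k : ℝ) ≤ Real.log X / Real.log N := Nat.floor_le (by positivity)
    have hk3 : Real.log X / Real.log N < (k : ℝ) + 1 := Nat.lt_floor_add_one _
    have hk2' : (k : ℝ) * Real.log N ≤ Real.log X := by rwa [le_div_iff₀ hlogN0] at hk2
    have hk3' : Real.log X < ((k : ℝ) + 1) * Real.log N := by rwa [div_lt_iff₀ hlogN0] at hk3
    have hk1' : (1 : ℝ) ≤ k := by exact_mod_cast hk1
    have hlogNk : Real.log ((N : ℝ) ^ k) = k * Real.log N := by rw [Real.log_pow]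
    refine ⟨k, hk1, ?_, ?_, ?_⟩
    · rw [le_div_iff₀ hδ]
      have h1 : (k : ℝ) * (6 / 7 * (δ * Real.log T)) ≤ 6 * Real.log T :=
        ((mul_le_mul_of_nonneg_left hlogN (by linarith)).trans hk2').trans hlogX2
      by_contra hcon
      push Not at hcon
      have h2 : 7 * Real.log T < (k : ℝ) * δ * Real.log T := mul_lt_mul_of_pos_right hcon hlogT
      nlinarith
    · rw [← Real.log_le_log_iff (Real.rpow_pos_of_pos hX0 _) (pow_pos hN0 k), hlogNk,
        Real.log_rpow hX0]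
      nlinarith
    · rw [← Real.log_le_log_iff (pow_pos hN0 k) hX0, hlogNk]
      exact hk2'
  · have hlogN2' : Real.log ((N : ℝ) ^ 2) = 2 * Real.log N := by
      rw [Real.log_pow]; norm_num
    refine ⟨2, by norm_num, ?_, ?_, ?_⟩
    · rw [le_div_iff₀ hδ]
      push_cast
      linarith
    · rw [← Real.log_le_log_iff (Real.rpow_pos_of_pos hX0 _) (pow_pos hN0 2), hlogN2',
        Real.log_rpow hX0]
      linarith
    · rw [← Real.log_le_log_iff (pow_pos hN0 2) hX0, hlogN2']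
      nlinarith

end Pool.Agent.helper78.ED
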